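import Mathlib
import Pool.Agent.H140.QM.Local
import Pool.Agent.H140.Q.CmpA

/-!
# Algebra for the key formula, `S` a polynomial
-/

set_option autoImplicit false

namespace Pool.Agent.H140.QM

open Polynomial
open Pool.Agent.H985.Chow
open Pool.Agent.H140.Q.Alg (tay_der tay_HH tay_coeff3)

namespace Alg

section tay

variable {R : Type*} [CommRing R]

lemma tay_Hp (r : R) (S a U G M F : R[X]) :
    taylor r (Local.Hp 0 S a U G M F) =
      Local.Hp r (taylor r S) (taylor r a) (taylor r U) (taylor r G) (taylor r M)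
        (taylor r F) := by
  unfold Local.Hp
  have h2 : (2 : R[X]) = C 2 := (map_ofNat C 2).symm
  rw [h2]
  simp only [map_add, map_sub, taylor_mul, taylor_C, taylor_pow, tay_HH, tay_der]

variable {k : Type*} [Field k] [CharP k 2]

theorem tloc (red : R →+* k) (hun : ∀ x, red x ≠ 0 → IsUnit x) (r s₀ χ : R)
    (S₁ a U G M B c F : R[X])
    (hF : F = U ^ 2 + X * G ^ 2 + 2 * M) (hG : G = C χ * (B * (X - C r))) (hχ : red χ ≠ 0)
    (hs : red s₀ ≠ 0) (hs₁ : red (S₁.eval r) ≠ 0)
    (hU : red (U.eval r) ≠ 0) (hG1 : red ((derivative G).eval r) ≠ 0)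
    (hcd : c.natDegree < 4)
    (hc : (X - C r) ^ 4 ∣ c * (S₁ * B) ^ 4 * F -
      (Local.Hp 0 (C s₀ * S₁) a U G M F * (C s₀ * S₁ * G) ^ 2 -
        (Local.Hp 0 (C s₀ * S₁) a U G M F) ^ 2) * derivative F) :
    ∃ l, c.coeff 3 = (s₀ * χ) ^ 4 * (2 * l) ∧ ∀ κ W e0 e1 : k,
      e0 = red (U.eval r) * red ((derivative U).eval r) + red ((derivative M).eval r) →
      e1 = red ((derivative U).eval r) ^ 2 + red r * red ((derivative G).eval r) ^ 2 →
      κ = e0 * e1 / (red ((derivative G).eval r) ^ 2 * red (U.eval r) ^ 2) →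
      W = e1 ^ 3 / (red ((derivative G).eval r) ^ 4 * red (U.eval r) ^ 2) →
      red l = κ + κ ^ 2 + W := by
  have hsχ : IsUnit (s₀ * χ) := by
    apply hun
    rw [map_mul]
    exact mul_ne_zero hs hχ
  obtain ⟨t, ht⟩ := hsχ.exists_right_inv
  have hX : taylor r (X - C r) = X := by
    rw [map_sub, taylor_X, taylor_C]
    ring
  have h2 : taylor r (2 : R[X]) = 2 := by
    have h2 : (2 : R[X]) = C 2 := (map_ofNat C 2).symm
    rw [h2, taylor_C]
  have hF' : taylor r F = (taylor r U) ^ 2 + (X + C r) * (taylor r G) ^ 2 + 2 * taylor r M := by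
    rw [hF]
    simp only [map_add, taylor_mul, taylor_pow, taylor_X, h2]
  obtain ⟨S, hS⟩ : ∃ S, S = C s₀ * S₁ := ⟨_, rfl⟩
  rw [← hS] at hc
  have hS' : taylor r S = C s₀ * taylor r S₁ := by rw [hS, taylor_mul, taylor_C]
  have hG' : taylor r S * taylor r G = X * (C (s₀ * χ) * taylor r (S₁ * B)) := by
    rw [hG, hS', taylor_mul, taylor_mul, taylor_C, hX, C_mul, taylor_mul]
    ring
  obtain ⟨B', hB'⟩ : ∃ B', B' = S₁ * B := ⟨_, rfl⟩
  rw [← hB'] at hc hG'
  have hc' : X ^ 4 ∣ (C (t ^ 4) * taylor r c) * (C (s₀ * χ) * taylor r B') ^ 4 *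
        taylor r F -
      (Local.Hp r (taylor r S) (taylor r a) (taylor r U) (taylor r G) (taylor r M)
          (taylor r F) *
        (taylor r S * taylor r G) ^ 2 -
        (Local.Hp r (taylor r S) (taylor r a) (taylor r U) (taylor r G) (taylor r M)
          (taylor r F)) ^ 2) *
          derivative (taylor r F) := by
    obtain ⟨q, hq⟩ := hc
    have h0 := congrArg (taylor r) hq
    have h1 : X ^ 4 ∣ taylor r c * taylor r B' ^ 4 * taylor r F -
        (Local.Hp r (taylor r S) (taylor r a) (taylor r U) (taylor r G) (taylor r M)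
          (taylor r F) *
        (taylor r S * taylor r G) ^ 2 -
        (Local.Hp r (taylor r S) (taylor r a) (taylor r U) (taylor r G) (taylor r M)
          (taylor r F)) ^ 2) *
          derivative (taylor r F) := by
      refine ⟨taylor r q, ?_⟩
      rw [map_sub, taylor_mul, taylor_mul, taylor_pow, taylor_mul, map_sub, taylor_mul,
        taylor_pow, taylor_pow, taylor_mul, tay_Hp, tay_der, taylor_mul, taylor_pow,
        hX] at h0
      exact h0
    have e2 : (C (t ^ 4) * taylor r c) * (C (s₀ * χ) * taylor r B') ^ 4 * taylor r F =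
        taylor r c * taylor r B' ^ 4 * taylor r F := by
      have e3 : C (t ^ 4) * C (s₀ * χ) ^ 4 = (1 : R[X]) := by
        rw [← C_pow, ← C_mul, ← mul_pow, mul_comm t, ht, one_pow, C_1]
      linear_combination (taylor r c * taylor r B' ^ 4 * taylor r F) * e3
    rw [e2]
    exact h1
  obtain ⟨l, hl, hl2⟩ := Local.loc red hun r (taylor r S) (taylor r a) (taylor r U)
    (taylor r G) (taylor r M)
    (C (s₀ * χ) * taylor r B') (C (t ^ 4) * taylor r c) (taylor r F) hF' hG'
    (by
      rw [taylor_coeff_zero, hS, eval_mul, eval_C, map_mul]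
      exact mul_ne_zero hs hs₁)
    (by rwa [taylor_coeff_zero]) (by rwa [taylor_coeff_one]) hc'
  refine ⟨l, ?_, ?_⟩
  · rw [coeff_C_mul, tay_coeff3 r hcd] at hl
    have h5 : (s₀ * χ) ^ 4 * t ^ 4 = 1 := by rw [← mul_pow, ht, one_pow]
    linear_combination (s₀ * χ) ^ 4 * hl - c.coeff 3 * h5
  · intro κ W e0 e1 he0 he1 hκ hW
    refine hl2 κ W e0 e1 ?_ ?_ ?_ ?_
    · rw [he0, taylor_coeff_zero, taylor_coeff_one, taylor_coeff_one]
    · rw [he1, taylor_coeff_one, taylor_coeff_one]
    · rw [hκ, taylor_coeff_zero, taylor_coeff_one]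
    · rw [hW, taylor_coeff_zero, taylor_coeff_one]

end tay

end Alg

end Pool.Agent.H140.QM
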