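import Mathlib
import Pool.Agent.H140.QM.Alg
import Pool.Agent.H524.Disc

/-!
# One side of the key formula
-/

set_option autoImplicit false

namespace Pool.Agent.H140.QM

open Polynomial
open Pool.Agent.H985.Chow
open Pool.Agent.H524 (vdm)
open Pool.Agent.H140.Q (der_w)

/-- the data attached to one polynomial `F = A ^ 2 + S ^ 2 A + Cc = mt Fo` -/
structure Sd {R : Type} [CommRing R] {k : Type} [Field k] (red : R →+* k)
    (S G Cc mt : R[X]) (N : ℕ) where
  A : R[X]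
  U : R[X]
  M : R[X]
  F : R[X]
  Fo : R[X]
  v : Fin N → R
  hF : F = U ^ 2 + X * G ^ 2 + 2 * M
  hA : F = A ^ 2 + S ^ 2 * A + Cc
  hm : F = mt * Fo
  hv : Fo = ∏ j, (X - C (v j))
  hG : ∀ j, red (G.eval (v j)) ≠ 0
  hS : ∀ j, red (S.eval (v j)) ≠ 0
  hmt : ∀ j, red (mt.eval (v j)) ≠ 0

namespace Sd

variable {R : Type} [CommRing R] {k : Type} [Field k] {red : R →+* k}
    {S G Cc mt : R[X]} {N : ℕ} (D : Sd red S G Cc mt N)

/-- the polynomial `H` -/
noncomputable def H : R[X] := Local.Hp 0 S D.A D.U G D.M D.F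

/-- the polynomial `b` -/
noncomputable def b : R[X] := 2 * D.A + S ^ 2

lemma bF : D.b * derivative D.F = (S * G) ^ 2 + 2 * D.H +
    4 * (D.F * (derivative D.A + S * derivative S)) := by
  have h1 : D.F = D.U ^ 2 + (X + C 0) * G ^ 2 + 2 * D.M := by
    rw [C_0, add_zero]
    exact D.hF
  have h2 := Q.Local.der_F 0 h1
  rw [h2]
  unfold b H Local.Hp
  ring

lemma Fo_eval (j : Fin N) : D.Fo.eval (D.v j) = 0 := by
  rw [D.hv, eval_prod]
  exact Finset.prod_eq_zero (Finset.mem_univ j) (by simp)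

lemma F_eval (j : Fin N) : D.F.eval (D.v j) = 0 := by
  rw [D.hm, eval_mul, Fo_eval, mul_zero]

lemma dF : derivative D.F = derivative mt * D.Fo + mt * derivative D.Fo := by
  conv_lhs => rw [D.hm]
  rw [derivative_mul]

lemma dF_eval (j : Fin N) : (derivative D.F).eval (D.v j) =
    mt.eval (D.v j) * (derivative D.Fo).eval (D.v j) := by
  rw [dF, eval_add, eval_mul, eval_mul, Fo_eval, mul_zero, zero_add]

lemma bF_eval (j : Fin N) : D.b.eval (D.v j) *
    (mt.eval (D.v j) * (derivative D.Fo).eval (D.v j)) =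
    (S.eval (D.v j) * G.eval (D.v j)) ^ 2 + 2 * D.H.eval (D.v j) := by
  have h := congrArg (eval (D.v j)) D.bF
  simp only [eval_mul, eval_add, eval_pow, eval_ofNat, D.F_eval j, D.dF_eval j] at h
  rw [h]
  ring

lemma uS (hun : ∀ x, red x ≠ 0 → IsUnit x) (j : Fin N) : IsUnit (S.eval (D.v j)) :=
  hun _ (D.hS j)

lemma uG (hun : ∀ x, red x ≠ 0 → IsUnit x) (j : Fin N) : IsUnit (G.eval (D.v j)) :=
  hun _ (D.hG j)

lemma exists_z (hun : ∀ x, red x ≠ 0 → IsUnit x) :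
    ∃ z : Fin N → R, ∀ j, (S.eval (D.v j) * G.eval (D.v j)) ^ 2 * z j =
      D.H.eval (D.v j) := by
  have h : ∀ j, ∃ z, (S.eval (D.v j) * G.eval (D.v j)) ^ 2 * z = D.H.eval (D.v j) := by
    intro j
    obtain ⟨t, ht⟩ := (((D.uS hun j).mul (D.uG hun j)).pow 2).exists_right_inv
    exact ⟨t * D.H.eval (D.v j), by rw [← mul_assoc, ht, one_mul]⟩
  choose z hz using h
  exact ⟨z, hz⟩

lemma exists_u (hun : ∀ x, red x ≠ 0 → IsUnit x) (P : R[X]) (i : ℕ) :
    ∃ z : Fin N → R, ∀ j, (S.eval (D.v j)) ^ i * z j = P.eval (D.v j) := by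
  have h : ∀ j, ∃ z, (S.eval (D.v j)) ^ i * z = P.eval (D.v j) := by
    intro j
    obtain ⟨t, ht⟩ := ((D.uS hun j).pow i).exists_right_inv
    exact ⟨t * P.eval (D.v j), by rw [← mul_assoc, ht, one_mul]⟩
  choose z hz using h
  exact ⟨z, hz⟩

/-- the discriminant -/
lemma disc (hun : ∀ x, red x ≠ 0 → IsUnit x) {z u : Fin N → R}
    (hz : ∀ j, (S.eval (D.v j) * G.eval (D.v j)) ^ 2 * z j = D.H.eval (D.v j))
    (hu : ∀ j, (S.eval (D.v j)) ^ 2 * u j = D.A.eval (D.v j)) :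
    ((∏ j, (1 + 2 * u j)) * ∏ j, mt.eval (D.v j)) *
        ((-1) ^ (N * (N - 1) / 2) * vdm D.v ^ 2) =
      (∏ j, G.eval (D.v j)) ^ 2 * ∏ j, (1 + 2 * z j) := by
  rw [← Pool.Agent.H524.prod_eval_derivative, ← D.hv, ← Finset.prod_mul_distrib,
    ← Finset.prod_mul_distrib, ← Finset.prod_pow, ← Finset.prod_mul_distrib]
  refine Finset.prod_congr rfl fun j _ => ?_
  apply ((D.uS hun j).pow 2).mul_left_cancel
  have h := D.bF_eval j
  have hb : D.b.eval (D.v j) = (S.eval (D.v j)) ^ 2 * (1 + 2 * u j) := by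
    unfold b
    simp only [eval_add, eval_mul, eval_ofNat, eval_pow]
    rw [← hu j]
    ring
  rw [hb, ← hz j] at h
  linear_combination h

lemma coprime_of (hun : ∀ x, red x ≠ 0 → IsUnit x) (P : R[X])
    (h : ∀ j, red (P.eval (D.v j)) ≠ 0) : IsCoprime P D.Fo := by
  rw [D.hv]
  apply IsCoprime.prod_right
  intro j _
  apply IsCoprime.symm
  apply RT.coprime_X_sub_C
  exact hun _ (h j)

/-- a polynomial with given values at the roots -/
lemma exists_P (hun : ∀ x, red x ≠ 0 → IsUnit x) (B Y : R[X])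
    (hB : ∀ j, red (B.eval (D.v j)) ≠ 0) {y : Fin N → R}
    (hy : ∀ j, B.eval (D.v j) * y j = Y.eval (D.v j)) :
    ∃ P : R[X], D.Fo ∣ P * B - Y ∧ ∀ j, P.eval (D.v j) = y j := by
  obtain ⟨u, w, huw⟩ := D.coprime_of hun B hB
  have hdv : D.Fo ∣ (u * Y) * B - Y := ⟨-w * Y, by linear_combination Y * huw⟩
  refine ⟨u * Y, hdv, fun j => ?_⟩
  obtain ⟨q, hq⟩ := hdv
  have h := congrArg (eval (D.v j)) hq
  simp only [eval_mul, eval_sub, D.Fo_eval j, zero_mul] at h
  apply (hun _ (hB j)).mul_left_cancel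
  rw [hy j, eval_mul]
  linear_combination h

end Sd

end Pool.Agent.H140.QM
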