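import Mathlib
import Pool.Agent.H140.QM.Side

/-!
# Comparison of the products of `1 + 2 u` and of `mt`
-/

set_option autoImplicit false

namespace Pool.Agent.H140.QM

open Polynomial
open Pool.Agent.H985.Chow
open Pool.Agent.H524 (vdm)
open Pool.Agent.H140.Q (der_w dm da ds dd dC d2 d4)

namespace Sd

variable {R : Type} [CommRing R] {k : Type} [Field k] {red : R →+* k}
    {S G Cc mt : R[X]} {N : ℕ}

lemma Fo_monic (D : Sd red S G Cc mt N) : D.Fo.Monic := by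
  rw [D.hv]
  exact monic_prod_of_monic _ _ fun j _ => monic_X_sub_C _

lemma Fo_deg [Nontrivial R] (D : Sd red S G Cc mt N) : D.Fo.natDegree = N := by
  rw [D.hv, natDegree_prod_of_monic _ _ fun j _ => monic_X_sub_C _]
  simp

lemma F_deg [Nontrivial R] (D : Sd red S G Cc mt N) (hmt : mt.Monic) :
    D.F.natDegree = mt.natDegree + N := by
  rw [D.hm, hmt.natDegree_mul D.Fo_monic, D.Fo_deg]

lemma der_F' (D : Sd red S G Cc mt N) : derivative D.F =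
    2 * (D.A * derivative D.A) + S ^ 2 * derivative D.A + 2 * (S * derivative S * D.A) +
      derivative Cc := by
  rw [D.hA, derivative_add, derivative_add, der_w, derivative_mul, der_w]
  ring

variable (D₁ D₂ : Sd red S G Cc mt N)

lemma F_dif {w : R[X]} (hw : D₂.A = D₁.A + w ^ 2) :
    D₂.F = D₁.F + w ^ 2 * (D₁.A + D₂.A + S ^ 2) := by
  rw [D₂.hA, D₁.hA, hw]
  ring

lemma der_dif {w : R[X]} (hw : D₂.A = D₁.A + w ^ 2) :
    derivative D₂.F = derivative D₁.F + w * (2 * derivative w * (D₁.A + D₂.A + S ^ 2) +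
      w * (derivative D₁.A + derivative D₂.A + 2 * (S * derivative S))) := by
  rw [F_dif D₁ D₂ hw, derivative_add, derivative_mul, der_w, derivative_add, derivative_add,
    der_w]
  ring

/-- the product of `1 + 2 u` -/
lemma produ (D : Sd red S G Cc mt N) (hun : ∀ x, red x ≠ 0 → IsUnit x) {u y : Fin N → R}
    (hu : ∀ j, (S.eval (D.v j)) ^ 2 * u j = D.A.eval (D.v j))
    (hy : ∀ j, (S.eval (D.v j)) ^ 4 * y j = Cc.eval (D.v j)) :
    ∃ t, ∏ j, (1 + 2 * u j) = 1 + 4 * (∑ j, u j) + 2 * (∑ j, u j) ^ 2 + 2 * (∑ j, y j) +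
      8 * t := by
  obtain ⟨e, t, h1, h2⟩ := Q.Alg.prod12 Finset.univ u
  have hq : ∀ j, (u j) ^ 2 = - u j - y j := by
    intro j
    have h := congrArg (eval (D.v j)) D.hA
    rw [D.F_eval j] at h
    simp only [eval_mul, eval_add, eval_pow, ← hu j, ← hy j] at h
    apply ((D.uS hun j).pow 4).mul_left_cancel
    linear_combination -h
  have hs : ∑ j, (u j) ^ 2 = - (∑ j, u j) - ∑ j, y j := by
    rw [Finset.sum_congr rfl fun j _ => hq j, Finset.sum_sub_distrib, Finset.sum_neg_distrib]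
  rw [hs] at h1
  refine ⟨t, ?_⟩
  rw [h2]
  linear_combination (-2) * h1

/-- the products of `mt` over the roots agree -/
lemma prodmt [IsDomain R] (hmt : mt.Monic) {w : R[X]} (hw : D₂.A = D₁.A + w ^ 2)
    (hmw : mt ∣ w) (hN : mt.natDegree ≤ N) :
    ∏ j, mt.eval (D₁.v j) = ∏ j, mt.eval (D₂.v j) := by
  obtain ⟨q, hq⟩ := hmw
  have h1 : D₂.Fo = D₁.Fo + mt * (q ^ 2 * (D₁.A + D₂.A + S ^ 2)) := by
    apply mul_left_cancel₀ hmt.ne_zero
    have h2 := F_dif D₁ D₂ hw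
    rw [D₁.hm, D₂.hm, hq] at h2
    linear_combination h2
  obtain ⟨p, hp⟩ : ∃ p, p = q ^ 2 * (D₁.A + D₂.A + S ^ 2) := ⟨_, rfl⟩
  rw [← hp] at h1
  have hd : p.natDegree + mt.natDegree ≤ N := by
    by_cases hp0 : p = 0
    · rw [hp0, natDegree_zero, zero_add]
      exact hN
    · have h2 : mt * p = D₂.Fo - D₁.Fo := by rw [h1]; ring
      have h3 : (mt * p).natDegree ≤ N := by
        rw [h2]
        exact ds D₂.Fo_deg.le D₁.Fo_deg.le
      rw [hmt.natDegree_mul' hp0] at h3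
      omega
  have h3 := Pool.Agent.H524.resultant_compare le_rfl h1 le_rfl hd D₁.Fo_deg.le
  rw [Nat.sub_self, pow_zero, mul_one, mul_comm mt.natDegree N, ← two_mul, pow_mul, neg_one_sq,
    one_pow, one_mul, D₁.hv, D₂.hv, Pool.Agent.H524.resultant_prod_linear _ _ _ le_rfl,
    Pool.Agent.H524.resultant_prod_linear _ _ _ le_rfl] at h3
  exact h3.symm

section tr

variable [IsDomain R]

lemma tr_side (D : Sd red S G Cc mt N) {S₁ : R[X]} {s₀ : R} (hS : S = C s₀ * S₁) {Y ν P : R[X]}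
    (hP : D.Fo ∣ P * S ^ 4 - Y) (hν : D.Fo ∣ ν - Y * derivative D.F) (B : R[X]) (hB : B = S₁ * mt) :
    D.Fo ∣ ν * mt ^ 3 - C (s₀ ^ 4) * P * derivative D.Fo * B ^ 4 := by
  obtain ⟨q, hq⟩ := hP
  obtain ⟨q', hq'⟩ := hν
  refine ⟨q' * mt ^ 3 + Y * derivative mt * mt ^ 3 - q * derivative D.Fo * mt ^ 4, ?_⟩
  have h1 := D.dF
  have h2 : S ^ 4 = C (s₀ ^ 4) * S₁ ^ 4 := by rw [hS, C_pow]; ring
  rw [hB]
  rw [h1] at hq'
  rw [h2] at hq
  linear_combination mt ^ 3 * hq' - (derivative D.Fo * mt ^ 4) * hq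

/-- comparison of sums over the roots -/
lemma cmpTr (hun : ∀ x, red x ≠ 0 → IsUnit x) {S₁ : R[X]} {s₀ : R} (hS : S = C s₀ * S₁)
    (hs₀ : IsUnit s₀) (hS₁ : S₁.Monic) (hmt : mt.Monic) (hN : 1 ≤ N) {Y₁ Y₂ ν₁ ν₂ : R[X]}
    {y₁ y₂ : Fin N → R}
    (hy₁ : ∀ j, (S.eval (D₁.v j)) ^ 4 * y₁ j = Y₁.eval (D₁.v j))
    (hy₂ : ∀ j, (S.eval (D₂.v j)) ^ 4 * y₂ j = Y₂.eval (D₂.v j))
    (hν₁ : D₁.Fo ∣ ν₁ - Y₁ * derivative D₁.F) (hν₂ : D₂.Fo ∣ ν₂ - Y₂ * derivative D₂.F)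
    (hdv : (S₁ * mt) ^ 4 ∣ ν₁ * D₂.F - ν₂ * D₁.F)
    (hdeg : (ν₁ * D₂.F - ν₂ * D₁.F).natDegree + 2 ≤
      4 * S₁.natDegree + 2 * mt.natDegree + 2 * N) :
    ∑ j, y₁ j = ∑ j, y₂ j := by
  classical
  have hSv : ∀ D : Sd red S G Cc mt N, ∀ j, red ((S ^ 4).eval (D.v j)) ≠ 0 := by
    intro D j
    rw [eval_pow, map_pow]
    exact pow_ne_zero _ (D.hS j)
  obtain ⟨P₁, hP₁, hP₁'⟩ := D₁.exists_P hun (S ^ 4) Y₁ (hSv D₁) (y := y₁) (by
    intro j
    rw [eval_pow, hy₁ j])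
  obtain ⟨P₂, hP₂, hP₂'⟩ := D₂.exists_P hun (S ^ 4) Y₂ (hSv D₂) (y := y₂) (by
    intro j
    rw [eval_pow, hy₂ j])
  have hSm : (S₁ * mt).Monic := hS₁.mul hmt
  have hSe : ∀ x, S.eval x = s₀ * S₁.eval x := by
    intro x
    rw [hS, eval_mul, eval_C]
  have hco : ∀ D : Sd red S G Cc mt N, IsCoprime (S₁ * mt) D.Fo := by
    intro D
    refine D.coprime_of hun _ fun j => ?_
    have h1 := D.hS j
    rw [hSe, map_mul] at h1
    rw [eval_mul, map_mul]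
    exact mul_ne_zero (right_ne_zero_of_mul h1) (D.hmt j)
  have hcr : ν₁ * mt ^ 3 * D₂.Fo - ν₂ * mt ^ 3 * D₁.Fo =
      mt ^ 2 * (ν₁ * D₂.F - ν₂ * D₁.F) := by
    rw [D₁.hm, D₂.hm]
    ring
  have hprod : (S₁ * mt * ∏ i : Empty, (X - C ((fun i : Empty => i.elim : Empty → R) i))) =
      S₁ * mt := by
    rw [Finset.univ_eq_empty, Finset.prod_empty, mul_one]
  have hdeg2 : ((S₁ * mt * ∏ i : Empty, (X - C ((fun i : Empty => i.elim : Empty → R) i))) ^ 4 *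
      D₁.Fo * D₂.Fo).natDegree = 4 * (S₁.natDegree + mt.natDegree) + N + N := by
    rw [hprod, ((hSm.pow 4).mul D₁.Fo_monic).natDegree_mul D₂.Fo_monic,
      (hSm.pow 4).natDegree_mul D₁.Fo_monic, hSm.natDegree_pow, hS₁.natDegree_mul hmt, D₁.Fo_deg,
      D₂.Fo_deg]
  have key := rt R 4 (by norm_num) Empty (fun i => i.elim) (S₁ * mt) D₁.Fo D₂.Fo
    (ν₁ * mt ^ 3) (ν₂ * mt ^ 3) (C (s₀ ^ 4) * P₁ * derivative D₁.Fo)
    (C (s₀ ^ 4) * P₂ * derivative D₂.Fo) (fun i => i.elim) (fun i => i.elim) hSm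
    D₁.Fo_monic D₂.Fo_monic (fun i => i.elim) (fun i => i.elim) (hco D₁) (hco D₂)
    (fun i => i.elim) (fun i => i.elim) (by rw [D₁.Fo_deg]; exact hN)
    (by rw [D₂.Fo_deg]; exact hN)
    (D₁.tr_side hS hP₁ hν₁ _ hprod) (D₂.tr_side hS hP₂ hν₂ _ hprod)
    (by rw [hcr]; exact Dvd.dvd.mul_left hdv _)
    (by
      rw [hcr, hdeg2]
      have h1 := natDegree_mul_le (p := mt ^ 2) (q := ν₁ * D₂.F - ν₂ * D₁.F)
      have h2 : (mt ^ 2).natDegree = 2 * mt.natDegree := hmt.natDegree_pow 2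
      omega)
    (fun i => i.elim) (fun i => i.elim) (fun i => i.elim) (fun i => i.elim)
  have hlc : ∀ (D : Sd red S G Cc mt N) (P : R[X]) (y : Fin N → R),
      (∀ j, P.eval (D.v j) = y j) →
      lc D.Fo (C (s₀ ^ 4) * P * derivative D.Fo) = s₀ ^ 4 * ∑ j, y j := by
    intro D P y hP
    have h1 := Q.Alg.sum_eval hN D.v (C (s₀ ^ 4) * P)
    rw [← D.hv] at h1
    rw [h1, Finset.mul_sum]
    refine Finset.sum_congr rfl fun j _ => ?_
    rw [eval_mul, eval_C, hP j]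
  rw [hlc D₁ P₁ y₁ hP₁', hlc D₂ P₂ y₂ hP₂', Finset.univ_eq_empty (α := Empty), Finset.sum_empty,
    neg_zero] at key
  apply (hs₀.pow 4).mul_left_cancel
  linear_combination key

end tr

end Sd

end Pool.Agent.H140.QM
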