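import Mathlib
import Pool.Agent.H140.QM.CmpA

/-!
# Comparison of the products of `(1 + 2 u) mt` modulo eight
-/

set_option autoImplicit false

namespace Pool.Agent.H140.QM

open Polynomial
open Pool.Agent.H985.Chow
open Pool.Agent.H524 (vdm)
open Pool.Agent.H140.Q (der_w dm da ds dd dC d2 d4)

namespace Sd

variable {R : Type} [CommRing R] [IsDomain R] {k : Type} [Field k] {red : R →+* k}
    {S G Cc mt : R[X]} {N : ℕ}

/-- the numerator for the sum of `u` -/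
noncomputable def ka (D : Sd red S G Cc mt N) : R[X] :=
  D.A * derivative Cc - S ^ 2 * (D.A * derivative D.A) - 2 * (Cc * derivative D.A) -
    2 * (S ^ 3 * derivative S * D.A) - 2 * (S * derivative S * Cc)

lemma ka_eq (D : Sd red S G Cc mt N) : D.ka = D.A * derivative D.F -
    2 * (D.F * (derivative D.A + S * derivative S)) := by
  rw [der_F' D]
  unfold ka
  conv_rhs => rw [D.hA]
  ring

variable (D₁ D₂ : Sd red S G Cc mt N)

lemma ka_dif {w : R[X]} (hw : D₂.A = D₁.A + w ^ 2) :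
    D₂.ka = D₁.ka + w * (w * derivative Cc -
      S ^ 2 * (w * derivative D₁.A + D₂.A * (2 * derivative w)) -
      2 * (Cc * (2 * derivative w)) - 2 * (S ^ 3 * derivative S * w)) := by
  have hdA : derivative D₂.A = derivative D₁.A + 2 * (w * derivative w) := by
    rw [hw, derivative_add, der_w]
  unfold ka
  rw [hdA, hw]
  ring

lemma crossU {w : R[X]} (hw : D₂.A = D₁.A + w ^ 2) :
    (S ^ 2 * D₁.ka) * D₂.F - (S ^ 2 * D₂.ka) * D₁.F =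
      w * (S ^ 2 * (D₁.ka * (w * (D₁.A + D₂.A + S ^ 2)) - (w * derivative Cc -
      S ^ 2 * (w * derivative D₁.A + D₂.A * (2 * derivative w)) -
      2 * (Cc * (2 * derivative w)) - 2 * (S ^ 3 * derivative S * w)) * D₁.F)) := by
  rw [ka_dif D₁ D₂ hw, F_dif D₁ D₂ hw]
  ring

lemma crossY {w : R[X]} (hw : D₂.A = D₁.A + w ^ 2) :
    (Cc * derivative D₁.F) * D₂.F - (Cc * derivative D₂.F) * D₁.F =
      w * (Cc * (derivative D₁.F * (w * (D₁.A + D₂.A + S ^ 2)) -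
        (2 * derivative w * (D₁.A + D₂.A + S ^ 2) +
      w * (derivative D₁.A + derivative D₂.A + 2 * (S * derivative S))) * D₁.F)) := by
  rw [der_dif D₁ D₂ hw, F_dif D₁ D₂ hw]
  ring

/-- the sums of `u` and `y` over the roots agree -/
lemma cmpA (hun : ∀ x, red x ≠ 0 → IsUnit x) {S₁ : R[X]} {s₀ : R} (hS : S = C s₀ * S₁)
    (hs₀ : IsUnit s₀) (hS₁ : S₁.Monic) (hmt : mt.Monic)
    {w : R[X]} (hw : D₂.A = D₁.A + w ^ 2) (hdw : (S₁ * mt) ^ 4 ∣ w) {n d c : ℕ}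
    (hN : N + mt.natDegree = 2 * n)
    (hA₁ : D₁.A.natDegree ≤ n) (hA₂ : D₂.A.natDegree ≤ n)
    (hwd : w.natDegree ≤ d) (hc : Cc.natDegree ≤ c) (hσ : 4 * S₁.natDegree ≤ c)
    (hμ : mt.natDegree ≤ c) (h3 : 2 * d + 2 * c + 4 ≤ n)
    {u₁ u₂ y₁ y₂ : Fin N → R}
    (hu₁ : ∀ j, (S.eval (D₁.v j)) ^ 2 * u₁ j = D₁.A.eval (D₁.v j))
    (hu₂ : ∀ j, (S.eval (D₂.v j)) ^ 2 * u₂ j = D₂.A.eval (D₂.v j))
    (hy₁ : ∀ j, (S.eval (D₁.v j)) ^ 4 * y₁ j = Cc.eval (D₁.v j))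
    (hy₂ : ∀ j, (S.eval (D₂.v j)) ^ 4 * y₂ j = Cc.eval (D₂.v j)) :
    ∑ j, u₁ j = ∑ j, u₂ j ∧ ∑ j, y₁ j = ∑ j, y₂ j := by
  have hN1 : 1 ≤ N := by omega
  obtain ⟨σ, hσe⟩ : ∃ σ, σ = S₁.natDegree := ⟨_, rfl⟩
  rw [← hσe] at hσ
  have hSd : S.natDegree ≤ σ := by
    rw [hS]
    exact dm (dC _ (c := 0)) hσe.ge (by omega)
  have hS2 : (S ^ 2).natDegree ≤ 2 * σ := by
    rw [pow_two]
    exact dm hSd hSd (by omega)
  have hS3 : (S ^ 3 * derivative S).natDegree ≤ 4 * σ := by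
    rw [pow_succ]
    exact dm (dm hS2 hSd le_rfl) (dd hSd) (by omega)
  have hSS : (S * derivative S).natDegree ≤ 2 * σ := dm hSd (dd hSd) (by omega)
  have hSA : (D₁.A + D₂.A + S ^ 2).natDegree ≤ n :=
    da (da hA₁ hA₂) (hS2.trans (by omega))
  have hF : ∀ D : Sd red S G Cc mt N, D.F.natDegree ≤ 2 * n := by
    intro D
    rw [D.F_deg hmt]
    omega
  have hFd : (w * (D₁.A + D₂.A + S ^ 2)).natDegree ≤ d + n := dm hwd hSA le_rfl
  have hka : D₁.ka.natDegree ≤ 2 * n + 2 * σ := by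
    unfold ka
    refine ds (ds (ds (ds (dm hA₁ (dd hc) (by omega))
      (dm hS2 (dm hA₁ (dd hA₁) le_rfl) (by omega)))
      (dm (d2 (c := 0)) (dm hc (dd hA₁) le_rfl) (by omega)))
      (dm (d2 (c := 0)) (dm hS3 hA₁ le_rfl) (by omega)))
      (dm (d2 (c := 0)) (dm hSS hc le_rfl) (by omega))
  constructor
  · refine cmpTr D₁ D₂ hun hS hs₀ hS₁ hmt hN1 (Y₁ := S ^ 2 * D₁.A) (Y₂ := S ^ 2 * D₂.A)
      (ν₁ := S ^ 2 * D₁.ka) (ν₂ := S ^ 2 * D₂.ka) ?_ ?_ ?_ ?_ ?_ ?_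
    · intro j
      rw [eval_mul, eval_pow, ← hu₁ j]
      ring
    · intro j
      rw [eval_mul, eval_pow, ← hu₂ j]
      ring
    · rw [ka_eq, D₁.hm]
      exact ⟨-(S ^ 2 * (2 * (mt * (derivative D₁.A + S * derivative S)))), by ring⟩
    · rw [ka_eq, D₂.hm]
      exact ⟨-(S ^ 2 * (2 * (mt * (derivative D₂.A + S * derivative S)))), by ring⟩
    · rw [crossU D₁ D₂ hw]
      exact Dvd.dvd.mul_right hdw _
    · rw [crossU D₁ D₂ hw]
      have h1 : (w * derivative Cc -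
        S ^ 2 * (w * derivative D₁.A + D₂.A * (2 * derivative w)) -
        2 * (Cc * (2 * derivative w)) - 2 * (S ^ 3 * derivative S * w)).natDegree ≤
          d + n + 2 * σ := by
        have h4 : (2 * derivative w).natDegree ≤ d := dm (d2 (c := 0)) (dd hwd) (by omega)
        refine ds (ds (ds (dm hwd (dd hc) (by omega)) (dm hS2 (b := d + n)
          (da (dm hwd (dd hA₁) le_rfl) (dm hA₂ h4 (by omega))) (by omega)))
          (dm (d2 (c := 0)) (dm hc h4 le_rfl) (by omega)))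
          (dm (d2 (c := 0)) (dm hS3 hwd le_rfl) (by omega))
      have h2 := dm hwd (dm hS2 (ds (dm hka hFd (c := 3 * n + 2 * σ + d) (by omega))
        (dm h1 (hF D₁) (c := 3 * n + 2 * σ + d) (by omega))) le_rfl) le_rfl
      omega
  · refine cmpTr D₁ D₂ hun hS hs₀ hS₁ hmt hN1 (Y₁ := Cc) (Y₂ := Cc)
      (ν₁ := Cc * derivative D₁.F) (ν₂ := Cc * derivative D₂.F) hy₁ hy₂ ?_ ?_ ?_ ?_
    · rw [sub_self]
      exact dvd_zero _
    · rw [sub_self]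
      exact dvd_zero _
    · rw [crossY D₁ D₂ hw]
      exact Dvd.dvd.mul_right hdw _
    · rw [crossY D₁ D₂ hw]
      have h1 : (2 * derivative w * (D₁.A + D₂.A + S ^ 2) +
          w * (derivative D₁.A + derivative D₂.A + 2 * (S * derivative S))).natDegree ≤
          d + n := by
        refine da (dm (dm (d2 (c := 0)) (dd hwd) (c := d) (by omega)) hSA le_rfl)
          (dm hwd (da (da (dd hA₁) (dd hA₂)) (dm (d2 (c := 0)) hSS (by omega))) le_rfl)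
      have h2 := dm hwd (dm hc (ds (dm (dd (hF D₁)) hFd (c := 3 * n + d) (by omega))
        (dm h1 (hF D₁) (c := 3 * n + d) (by omega))) le_rfl) le_rfl
      omega

/-- the products agree modulo eight -/
lemma cmpb (hun : ∀ x, red x ≠ 0 → IsUnit x) {S₁ : R[X]} {s₀ : R} (hS : S = C s₀ * S₁)
    (hs₀ : IsUnit s₀) (hS₁ : S₁.Monic) (hmt : mt.Monic)
    {w : R[X]} (hw : D₂.A = D₁.A + w ^ 2) (hdw : (S₁ * mt) ^ 4 ∣ w) {n d c : ℕ}
    (hN : N + mt.natDegree = 2 * n)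
    (hA₁ : D₁.A.natDegree ≤ n) (hA₂ : D₂.A.natDegree ≤ n)
    (hwd : w.natDegree ≤ d) (hc : Cc.natDegree ≤ c) (hσ : 4 * S₁.natDegree ≤ c)
    (hμ : mt.natDegree ≤ c) (h3 : 2 * d + 2 * c + 4 ≤ n)
    {u₁ u₂ : Fin N → R}
    (hu₁ : ∀ j, (S.eval (D₁.v j)) ^ 2 * u₁ j = D₁.A.eval (D₁.v j))
    (hu₂ : ∀ j, (S.eval (D₂.v j)) ^ 2 * u₂ j = D₂.A.eval (D₂.v j)) :
    ∃ t, (∏ j, (1 + 2 * u₁ j)) * ∏ j, mt.eval (D₁.v j) =
      (∏ j, (1 + 2 * u₂ j)) * (∏ j, mt.eval (D₂.v j)) + 8 * t := by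
  obtain ⟨y₁, hy₁⟩ := D₁.exists_u hun Cc 4
  obtain ⟨y₂, hy₂⟩ := D₂.exists_u hun Cc 4
  obtain ⟨t₁, h₁⟩ := D₁.produ hun hu₁ hy₁
  obtain ⟨t₂, h₂⟩ := D₂.produ hun hu₂ hy₂
  obtain ⟨e1, e2⟩ := cmpA D₁ D₂ hun hS hs₀ hS₁ hmt hw hdw hN hA₁ hA₂ hwd hc hσ hμ h3 hu₁ hu₂
    hy₁ hy₂
  have hmw : mt ∣ w := (Dvd.intro_left _ rfl : mt ∣ S₁ * mt).trans
    ((dvd_pow_self _ (by norm_num)).trans hdw)
  have e3 := prodmt D₁ D₂ hmt hw hmw (by omega)
  refine ⟨(t₁ - t₂) * ∏ j, mt.eval (D₂.v j), ?_⟩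
  rw [h₁, h₂, e1, e2, e3]
  ring

end Sd

end Pool.Agent.H140.QM
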