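import Mathlib
import Pool.Agent.H140.QM.CmpZ
import Pool.Agent.H140.Q.KeyR

/-!
# The comparison of the two sides
-/

set_option autoImplicit false

namespace Pool.Agent.H140.QM

open Polynomial
open Pool.Agent.H985.Chow
open Pool.Agent.H524 (vdm)
open Pool.Agent.H140.Q (der_w dm da ds dd dC d2 d4 eight)

namespace Sd

variable {R : Type} [CommRing R] [IsDomain R] {k : Type} [Field k] {red : R →+* k}
    {S G Cc mt : R[X]} {N : ℕ}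

lemma H_deg (D : Sd red S G Cc mt N) (h20 : (2 : R) ≠ 0) {n c g σ : ℕ} (hA : D.A.natDegree ≤ n)
    (hc : Cc.natDegree ≤ c) (hG : G.natDegree ≤ g) (hS : S.natDegree ≤ σ) (hσ : 4 * σ ≤ c)
    (hcn : c ≤ n) (hg : 2 * g + 2 * σ ≤ n + c) :
    D.H.natDegree ≤ n + c := by
  have e : (2 : R[X]) * D.H = C 2 * D.H := by rw [map_ofNat]
  have h1 : (2 * D.H).natDegree = D.H.natDegree := by rw [e, natDegree_C_mul h20]
  have hS2 : (S ^ 2).natDegree ≤ 2 * σ := by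
    rw [pow_two]
    exact dm hS hS (by omega)
  have hS3 : (S ^ 3 * derivative S).natDegree ≤ 4 * σ := by
    rw [pow_succ]
    exact dm (dm hS2 hS le_rfl) (dd hS) (by omega)
  have hS4 : (S ^ 4).natDegree ≤ 4 * σ := by
    rw [pow_succ, pow_succ]
    exact dm (dm hS2 hS le_rfl) hS (by omega)
  have hSS : (S * derivative S).natDegree ≤ 2 * σ := dm hS (dd hS) (by omega)
  have hSG : (S * G).natDegree ≤ σ + g := dm hS hG le_rfl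
  rw [← h1, twoH D]
  refine ds (ds (da (da (dm (a := c) (ds (hS4.trans (by omega)) (dm (d4 (c := 0)) hc (by omega)))
    (dd hA) (by omega))
    (dm (a := c) (ds (dm (d2 (c := 0)) (dd hc) (by omega))
      (dm (d2 (c := 0)) hS3 (by omega))) hA (by omega)))
    (dm hS2 (dd hc) (by omega))) (dm (d4 (c := 0)) (dm hSS hc le_rfl) (by omega))) ?_
  rw [pow_two]
  exact dm hSG hSG (by omega)

variable (D₁ D₂ : Sd red S G Cc mt N)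

lemma cross_deg (h20 : (2 : R) ≠ 0) (hmt : mt.Monic) {w : R[X]} (hw : D₂.A = D₁.A + w ^ 2)
    {n d c g σ : ℕ}
    (hN : N + mt.natDegree = 2 * n)
    (hA₁ : D₁.A.natDegree ≤ n) (hA₂ : D₂.A.natDegree ≤ n)
    (hwd : w.natDegree ≤ d) (hc : Cc.natDegree ≤ c) (hG : G.natDegree ≤ g)
    (hS : S.natDegree ≤ σ) (hσ : 4 * σ ≤ c) (hcn : c ≤ n) (hg : 2 * g + 2 * σ ≤ n + c) :
    (D₁.Nm * D₂.F - D₂.Nm * D₁.F).natDegree ≤ 5 * n + 2 * c + 2 * d := by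
  have hF₁ : D₁.F.natDegree ≤ 2 * n := by rw [D₁.F_deg hmt]; omega
  have hF₂ : D₂.F.natDegree ≤ 2 * n := by rw [D₂.F_deg hmt]; omega
  have hH₁ := H_deg D₁ h20 hA₁ hc hG hS hσ hcn hg
  have hH₂ := H_deg D₂ h20 hA₂ hc hG hS hσ hcn hg
  have hS2 : (S ^ 2).natDegree ≤ 2 * σ := by
    rw [pow_two]
    exact dm hS hS (by omega)
  have hS3 : (S ^ 3 * derivative S).natDegree ≤ 4 * σ := by
    rw [pow_succ]
    exact dm (dm hS2 hS le_rfl) (dd hS) (by omega)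
  have hS4 : (S ^ 4).natDegree ≤ 4 * σ := by
    rw [pow_succ, pow_succ]
    exact dm (dm hS2 hS le_rfl) hS (by omega)
  have hSS : (S * derivative S).natDegree ≤ 2 * σ := dm hS (dd hS) (by omega)
  have hG2 : ((S * G) ^ 2).natDegree ≤ n + c := by
    rw [pow_two]
    have h2 : (S * G).natDegree ≤ σ + g := dm hS hG le_rfl
    exact dm h2 h2 (by omega)
  have hSA : (D₁.A + D₂.A + S ^ 2).natDegree ≤ n := da (da hA₁ hA₂) (hS2.trans (by omega))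
  have hHG : (D₁.H * (S * G) ^ 2 - D₁.H ^ 2).natDegree ≤ 2 * n + 2 * c := by
    refine ds (dm hH₁ hG2 (by omega)) ?_
    rw [pow_two]
    exact dm hH₁ hH₁ (by omega)
  have hN₁ : D₁.Nm.natDegree ≤ 4 * n + 2 * c := dm hHG (dd hF₁) (by omega)
  have hw1 : (w * ((S ^ 4 - 4 * Cc) * derivative w +
      (derivative Cc - S ^ 3 * derivative S) * w)).natDegree ≤ 2 * d + c := by
    refine dm hwd (b := c + d) ?_ (by omega)
    exact da (dm (a := c) (ds (hS4.trans (by omega)) (dm (d4 (c := 0)) hc (by omega)))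
      (dd hwd) le_rfl)
      (dm (ds (dd hc) (hS3.trans hσ)) hwd (by omega))
  have hw2 : (w * (2 * derivative w * (D₁.A + D₂.A + S ^ 2) +
          w * (derivative D₁.A + derivative D₂.A + 2 * (S * derivative S)))).natDegree ≤
          2 * d + n := by
    refine dm hwd (b := d + n) ?_ (by omega)
    exact da (dm (dm d2 (dd hwd) (c := d) (a := 0) (by omega)) hSA le_rfl)
      (dm hwd (da (da (dd hA₁) (dd hA₂)) (dm (d2 (c := 0)) hSS (by omega))) le_rfl)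
  rw [cross D₁ D₂ h20 hw]
  refine ds (dm hN₁ (b := 2 * d + n) (dm hwd (b := d + n) (dm hwd hSA le_rfl) (by omega))
    (by omega)) ?_
  refine dm (a := 3 * n + 2 * c + 2 * d) ?_ hF₁ (by omega)
  refine da (dm (a := 2 * d + c + (n + c)) (dm hw1 (ds (ds hG2 hH₁) hH₂) le_rfl) (dd hF₂)
    (by omega)) (dm hHG hw2 (by omega))

lemma cross_dvd (h20 : (2 : R) ≠ 0) {w : R[X]} (hw : D₂.A = D₁.A + w ^ 2) :
    w ∣ D₁.Nm * D₂.F - D₂.Nm * D₁.F := by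
  rw [cross D₁ D₂ h20 hw]
  refine dvd_sub (Dvd.dvd.mul_left (Dvd.intro _ rfl) _) (Dvd.dvd.mul_right ?_ _)
  refine dvd_add (Dvd.dvd.mul_right (Dvd.dvd.mul_right (Dvd.intro _ rfl) _) _)
    (Dvd.dvd.mul_left (Dvd.intro _ rfl) _)

variable [CharP k 2]

theorem cmpZ (hun : ∀ x, red x ≠ 0 → IsUnit x) (h20 : (2 : R) ≠ 0)
    {S₁ : R[X]} {s₀ : R} (hS : S = C s₀ * S₁) (hs₀ : red s₀ ≠ 0) (hS₁ : S₁.Monic)
    (hmt : mt.Monic) {m : ℕ}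
    {χ : R} (hχ : red χ ≠ 0) {E : R[X]} {r : Fin m → R} (hEm : E.Monic)
    (hGE : G = C χ * (E * ∏ i, (X - C (r i)))) (hr : ∀ i j, i ≠ j → red (r i) ≠ red (r j))
    (hE : ∀ i, red (E.eval (r i)) ≠ 0) (hS₁r : ∀ i, red (S₁.eval (r i)) ≠ 0)
    (hmtr : ∀ i, red (mt.eval (r i)) ≠ 0) (hU₁ : ∀ i, red (D₁.U.eval (r i)) ≠ 0)
    (hU₂ : ∀ i, red (D₂.U.eval (r i)) ≠ 0)
    {w : R[X]} (hw : D₂.A = D₁.A + w ^ 2) (hEw : (S₁ * (E * mt)) ^ 5 ∣ w) {n d c : ℕ}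
    (hN : N + mt.natDegree = 2 * n)
    (hA₁ : D₁.A.natDegree ≤ n) (hA₂ : D₂.A.natDegree ≤ n)
    (hwd : w.natDegree ≤ d) (hc : Cc.natDegree ≤ c) (hσ : 4 * S₁.natDegree ≤ c)
    (hμ : mt.natDegree ≤ c)
    (h1 : n + 2 * d + 2 * c + 2 ≤ 4 * (E.natDegree + m))
    (h2 : 2 * (E.natDegree + m) + 2 * S₁.natDegree ≤ n + c) (h3 : 2 * d + 2 * c + 4 ≤ n)
    {z₁ z₂ : Fin N → R}
    (hz₁ : ∀ j, (S.eval (D₁.v j) * G.eval (D₁.v j)) ^ 2 * z₁ j = D₁.H.eval (D₁.v j))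
    (hz₂ : ∀ j, (S.eval (D₂.v j) * G.eval (D₂.v j)) ^ 2 * z₂ j = D₂.H.eval (D₂.v j)) :
    ∃ l₁ l₂ : Fin m → R, (∀ i, D₁.Loc (r i) (l₁ i)) ∧ (∀ i, D₂.Loc (r i) (l₂ i)) ∧
      ∑ j, (z₁ j - z₁ j ^ 2) + 2 * ∑ i, (l₁ i - l₂ i) = ∑ j, (z₂ j - z₂ j ^ 2) := by
  classical
  have hN1 : 1 ≤ N := by omega
  obtain ⟨P₁, c₁, l₁, a1, a2, a3, a4, a5, a6, a7, a8⟩ :=
    rtSide D₁ hN1 hun hS hs₀ hχ hGE hr hE hS₁r hmtr hU₁ hz₁
  obtain ⟨P₂, c₂, l₂, b1, b2, b3, b4, b5, b6, b7, b8⟩ :=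
    rtSide D₂ hN1 hun hS hs₀ hχ hGE hr hE hS₁r hmtr hU₂ hz₂
  have hpm : (∏ i, (X - C (r i))).Monic := monic_prod_of_monic _ _ fun i _ => monic_X_sub_C _
  have hpd : (∏ i, (X - C (r i))).natDegree = m := by
    rw [natDegree_prod_of_monic _ _ fun i _ => monic_X_sub_C _]
    simp
  have hEPd : (E * ∏ i, (X - C (r i))).natDegree = E.natDegree + m := by
    rw [hEm.natDegree_mul hpm, hpd]
  have hGd : G.natDegree ≤ E.natDegree + m := by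
    rw [hGE]
    exact dm (dC _ (c := 0)) hEPd.le (by omega)
  have hSd : S.natDegree ≤ S₁.natDegree := by
    rw [hS]
    exact dm (dC _ (c := 0)) le_rfl (by omega)
  have hcd := cross_deg D₁ D₂ h20 hmt hw hN hA₁ hA₂ hwd hc hGd hSd hσ (by omega) h2
  have hSEm : (S₁ * (E * mt)).Monic := hS₁.mul (hEm.mul hmt)
  have hSEd : (S₁ * (E * mt)).natDegree = S₁.natDegree + (E.natDegree + mt.natDegree) := by
    rw [hS₁.natDegree_mul (hEm.mul hmt), hEm.natDegree_mul hmt]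
  have hdeg : ((S₁ * (E * mt) * ∏ i, (X - C (r i))) ^ 4 * D₁.Fo * D₂.Fo).natDegree =
      4 * (S₁.natDegree + (E.natDegree + mt.natDegree) + m) + N + N := by
    have hB := hSEm.mul hpm
    rw [((hB.pow 4).mul D₁.Fo_monic).natDegree_mul D₂.Fo_monic,
      (hB.pow 4).natDegree_mul D₁.Fo_monic, hB.natDegree_pow, hSEm.natDegree_mul hpm, hSEd,
      hpd, D₁.Fo_deg, D₂.Fo_deg]
  have hcr : D₁.Nm * mt ^ 3 * D₂.Fo - D₂.Nm * mt ^ 3 * D₁.Fo =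
      mt ^ 2 * (D₁.Nm * D₂.F - D₂.Nm * D₁.F) := by
    rw [D₁.hm, D₂.hm]
    ring
  have key := rt R 4 (by norm_num) (Fin m) r (S₁ * (E * mt)) D₁.Fo D₂.Fo (D₁.Nm * mt ^ 3)
    (D₂.Nm * mt ^ 3) P₁ P₂ c₁ c₂ hSEm
    D₁.Fo_monic D₂.Fo_monic
    (fun i j hij => hun _ (by rw [map_sub]; exact sub_ne_zero.2 (hr i j hij)))
    (fun i => hun _ (by
      rw [eval_mul, eval_mul, map_mul, map_mul]
      exact mul_ne_zero (hS₁r i) (mul_ne_zero (hE i) (hmtr i))))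
    a7 b7 a8 b8 (by rw [D₁.Fo_deg]; omega) (by rw [D₂.Fo_deg]; omega)
    a1 b1 (by
      rw [hcr]
      exact Dvd.dvd.mul_left (((pow_dvd_pow _ (by norm_num : 4 ≤ 5)).trans hEw).trans
        (cross_dvd D₁ D₂ h20 hw)) _)
    (by
      rw [hdeg, hcr]
      have h4 := natDegree_mul_le (p := mt ^ 2) (q := D₁.Nm * D₂.F - D₂.Nm * D₁.F)
      have h5 : (mt ^ 2).natDegree = 2 * mt.natDegree := hmt.natDegree_pow 2
      omega) a3 b3 a4 b4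
  refine ⟨l₁, l₂, a6, b6, ?_⟩
  rw [a2, b2] at key
  have e1 : ∑ i, ((c₁ i).coeff (4 - 1) - (c₂ i).coeff (4 - 1)) =
      (s₀ * χ) ^ 4 * (2 * ∑ i, (l₁ i - l₂ i)) := by
    rw [Finset.mul_sum, Finset.mul_sum]
    refine Finset.sum_congr rfl fun i _ => ?_
    rw [show 4 - 1 = 3 from rfl, a5 i, b5 i]
    ring
  rw [e1] at key
  have hu : IsUnit ((s₀ * χ) ^ 4) := by
    apply hun
    rw [map_pow, map_mul]
    exact pow_ne_zero _ (mul_ne_zero hs₀ hχ)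
  apply hu.mul_left_cancel
  linear_combination key

theorem keyR (hun : ∀ x, red x ≠ 0 → IsUnit x) (hker : ∀ x, red x = 0 → ∃ y, x = 2 * y)
    (h20 : (2 : R) ≠ 0)
    {S₁ : R[X]} {s₀ : R} (hS : S = C s₀ * S₁) (hs₀ : red s₀ ≠ 0) (hS₁ : S₁.Monic)
    (hmt : mt.Monic) {m : ℕ}
    {χ : R} (hχ : red χ ≠ 0) {E : R[X]} {r : Fin m → R} (hEm : E.Monic)
    (hGE : G = C χ * (E * ∏ i, (X - C (r i)))) (hr : ∀ i j, i ≠ j → red (r i) ≠ red (r j))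
    (hE : ∀ i, red (E.eval (r i)) ≠ 0) (hS₁r : ∀ i, red (S₁.eval (r i)) ≠ 0)
    (hmtr : ∀ i, red (mt.eval (r i)) ≠ 0) (hU₁ : ∀ i, red (D₁.U.eval (r i)) ≠ 0)
    (hU₂ : ∀ i, red (D₂.U.eval (r i)) ≠ 0)
    {w : R[X]} (hw : D₂.A = D₁.A + w ^ 2) (hEw : (S₁ * (E * mt)) ^ 5 ∣ w) {n d c : ℕ}
    (hN : N + mt.natDegree = 2 * n)
    (hA₁ : D₁.A.natDegree ≤ n) (hA₂ : D₂.A.natDegree ≤ n)
    (hwd : w.natDegree ≤ d) (hc : Cc.natDegree ≤ c) (hσ : 4 * S₁.natDegree ≤ c)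
    (hμ : mt.natDegree ≤ c)
    (h1 : n + 2 * d + 2 * c + 2 ≤ 4 * (E.natDegree + m))
    (h2 : 2 * (E.natDegree + m) + 2 * S₁.natDegree ≤ n + c) (h3 : 2 * d + 2 * c + 4 ≤ n)
    (hv₂ : red (vdm D₂.v) ≠ 0) :
    ∃ (l₁ l₂ : Fin m → R) (N₁ N₂ q : R), (∀ i, D₁.Loc (r i) (l₁ i)) ∧
      (∀ i, D₂.Loc (r i) (l₂ i)) ∧
      (vdm D₁.v * ∏ j, G.eval (D₂.v j)) ^ 2 * N₂ =
        (vdm D₂.v * ∏ j, G.eval (D₁.v j)) ^ 2 * N₁ ∧ red N₂ = 1 ∧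
      N₁ - N₂ - 4 * (-(∑ i, (l₁ i - l₂ i))) = 8 * q := by
  have htwo : (2 : k) = 0 := CharTwo.two_eq_zero
  obtain ⟨z₁, hz₁⟩ := D₁.exists_z hun
  obtain ⟨z₂, hz₂⟩ := D₂.exists_z hun
  obtain ⟨u₁, hu₁⟩ := D₁.exists_u hun D₁.A 2
  obtain ⟨u₂, hu₂⟩ := D₂.exists_u hun D₂.A 2
  obtain ⟨l₁, l₂, L1, L2, hL⟩ := cmpZ D₁ D₂ hun h20 hS hs₀ hS₁ hmt hχ hEm hGE hr hE hS₁r hmtr hU₁
    hU₂ hw hEw hN hA₁ hA₂ hwd hc hσ hμ h1 h2 h3 hz₁ hz₂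
  have hd₁ := D₁.disc hun hz₁ hu₁
  have hd₂ := D₂.disc hun hz₂ hu₂
  have hdw : (S₁ * mt) ^ 4 ∣ w := by
    refine (pow_dvd_pow_of_dvd ?_ 4).trans ((pow_dvd_pow _ (by norm_num : 4 ≤ 5)).trans hEw)
    exact ⟨E, by ring⟩
  obtain ⟨t, ht⟩ := cmpb D₁ D₂ hun hS (hun _ hs₀) hS₁ hmt hw hdw hN hA₁ hA₂ hwd hc hσ hμ h3 hu₁ hu₂
  obtain ⟨e₁, t₁, he₁, hp₁⟩ := Q.Alg.prod12 Finset.univ z₁
  obtain ⟨e₂, t₂, he₂, hp₂⟩ := Q.Alg.prod12 Finset.univ z₂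
  have hsg : ((-1 : R) ^ (N * (N - 1) / 2)) * (-1) ^ (N * (N - 1) / 2) = 1 := by
    rw [← mul_pow]
    norm_num
  have hT : ∀ D : Sd red S G Cc mt N, red (∏ j, G.eval (D.v j)) ≠ 0 := by
    intro D
    rw [map_prod, Finset.prod_ne_zero_iff]
    exact fun j _ => D.hG j
  have hBu : IsUnit ((∏ j, (1 + 2 * u₁ j)) * ∏ j, mt.eval (D₁.v j)) := by
    apply hun
    rw [map_mul, map_prod, map_prod]
    refine mul_ne_zero ?_ (Finset.prod_ne_zero_iff.2 fun j _ => D₁.hmt j)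
    rw [Finset.prod_ne_zero_iff]
    intro j _
    rw [map_add, map_mul, map_ofNat, htwo, zero_mul, add_zero, map_one]
    exact one_ne_zero
  obtain ⟨N₁, q, hq1, hq2⟩ := eight red hker h20 hsg hBu
    (hun _ (by rw [map_mul]; exact mul_ne_zero hv₂ (hT D₁))) hd₁ hd₂ ht he₁ he₂ hp₁ hp₂
    (L := ∑ i, (l₁ i - l₂ i)) (by
      rw [← Finset.sum_sub_distrib, ← Finset.sum_sub_distrib]
      exact hL)
  refine ⟨l₁, l₂, N₁, ∏ j, (1 + 2 * z₂ j), q, L1, L2, hq1, ?_, hq2⟩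
  rw [map_prod]
  apply Finset.prod_eq_one
  intro j _
  rw [map_add, map_mul, map_ofNat, htwo, zero_mul, add_zero, map_one]

end Sd

end Pool.Agent.H140.QM
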