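import Mathlib
import Pool.Agent.H140.QM.CmpR
import Pool.Agent.H140.Q.KeyW
import Pool.Agent.H140.Q.StmM

/-!
# One side over the Witt vectors
-/

set_option autoImplicit false

namespace Pool.Agent.H140.QM

open Polynomial
open Pool.Agent.H985.Chow
open Pool.Agent.H140.Q (exists_half emap kq frob_kq)
open Pool.Agent.H524 (red emb frobLift AC vdm two_dvd_iff isUnit_iff_red two_ne_zero_witt
  red_frobLift frobLift_emb red_emb)

section witt

variable {K : Type} [Field K] [Fintype K] [CharP K 2]

omit [Fintype K] in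
lemma sqf {f u b m g : K[X]} (hf : f = u ^ 2 + X * b ^ 2) (hm : f = m * g)
    (hco : IsCoprime g b) : Squarefree g := by
  apply Separable.squarefree
  rw [Separable]
  have h1 : derivative f = b ^ 2 := by
    rw [hf]
    exact deriv_f u b
  have h2 : derivative f = m * derivative g + g * derivative m := by
    rw [hm, derivative_mul]
    ring
  have h3 : IsCoprime g (m * derivative g + g * derivative m) := by
    rw [← h2, h1]
    exact hco.pow_right
  exact (IsCoprime.add_mul_left_right_iff.mp h3).of_mul_right_right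

/-- one side -/
lemma sideW (S A Ct Gt mt U F Fo : (WittVector 2 K)[X]) {N : ℕ}
    (hF : F = A ^ 2 + S ^ 2 * A + Ct) (hm : F = mt * Fo) (hFm : Fo.Monic)
    (hFd : Fo.natDegree = N)
    (hr : F.map (red K) = (U.map (red K)) ^ 2 + X * (Gt.map (red K)) ^ 2)
    (hcG : IsCoprime (Fo.map (red K)) (Gt.map (red K)))
    (hcS : IsCoprime (Fo.map (red K)) (S.map (red K)))
    (hcm : IsCoprime (Fo.map (red K)) (mt.map (red K))) :
    ∃ (M : (WittVector 2 K)[X])
      (D : Sd (red (AC K)) (S.map (emb K)) (Gt.map (emb K)) (Ct.map (emb K))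
        (mt.map (emb K)) N),
      D.A = A.map (emb K) ∧ D.U = U.map (emb K) ∧ D.M = M.map (emb K) ∧ D.F = F.map (emb K) ∧
      frobLift K (vdm D.v) = (((-1) ^ N * mob (Fo.map (red K)) : ℤ) : WittVector 2 (AC K)) *
        vdm D.v ∧
      red (AC K) (vdm D.v) ≠ 0 ∧
      frobLift K (∏ j, (Gt.map (emb K)).eval (D.v j)) =
        ∏ j, (Gt.map (emb K)).eval (D.v j) ∧
      red (AC K) (∏ j, (Gt.map (emb K)).eval (D.v j)) ≠ 0 := by
  classical
  have hmr : F.map (red K) = mt.map (red K) * Fo.map (red K) := by
    rw [hm, Polynomial.map_mul]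
  have hsq : Squarefree (Fo.map (red K)) := sqf hr hmr hcG
  obtain ⟨v, hv, hvinj, hvperm, hvσ⟩ := sgn K N Fo hFm hFd hsq
  obtain ⟨M, hM⟩ := exists_half (F - U ^ 2 - X * Gt ^ 2) (by
    rw [Polynomial.map_sub, Polynomial.map_sub, hr, Polynomial.map_pow, Polynomial.map_mul,
      Polynomial.map_pow, map_X]
    ring)
  have hroot : ∀ j, (Fo.map (emb K)).eval (v j) = 0 := by
    intro j
    rw [hv, eval_prod]
    exact Finset.prod_eq_zero (Finset.mem_univ j) (by simp)
  have hne : ∀ P : (WittVector 2 K)[X], IsCoprime (Fo.map (red K)) (P.map (red K)) →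
      ∀ j, red (AC K) ((P.map (emb K)).eval (v j)) ≠ 0 := by
    intro P hP j h0
    have h1 : ((Fo.map (red K)).map (algebraMap K (AC K))).eval (red (AC K) (v j)) = 0 := by
      rw [← red_map_eval, hroot, map_zero]
    rw [red_map_eval] at h0
    exact coprime_eval hP _ h0 h1
  have hFe : F = U ^ 2 + X * Gt ^ 2 + 2 * M := by linear_combination hM
  let D : Sd (red (AC K)) (S.map (emb K)) (Gt.map (emb K)) (Ct.map (emb K))
        (mt.map (emb K)) N :=
    { A := A.map (emb K)
      U := U.map (emb K)
      M := M.map (emb K)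
      F := F.map (emb K)
      Fo := Fo.map (emb K)
      v := v
      hF := by
        rw [hFe]
        simp only [Polynomial.map_add, Polynomial.map_mul, Polynomial.map_pow, map_X,
          Polynomial.map_ofNat]
      hA := by
        rw [hF]
        simp only [Polynomial.map_add, Polynomial.map_mul, Polynomial.map_pow]
      hm := by rw [hm, Polynomial.map_mul]
      hv := hv
      hG := hne Gt hcG
      hS := hne S hcS
      hmt := hne mt hcm }
  choose π hπ using hvperm
  have hπinj : Function.Injective π := by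
    intro i j hij
    apply hvinj
    apply frobLift_injective_red (K := K)
    rw [hπ, hπ, hij]
  have hπbij : Function.Bijective π := Finite.injective_iff_bijective.mp hπinj
  refine ⟨M, D, rfl, rfl, rfl, rfl, ?_, ?_, ?_, ?_⟩
  · show frobLift K (vdm v) = _
    rw [hvσ]
    push_cast
    rfl
  · show red (AC K) (vdm v) ≠ 0
    intro h0
    have h1 := Pool.Agent.H524.map_vdm (red (AC K)) v
    rw [h0] at h1
    rw [Pool.Agent.H524.vdm_eq] at h1
    have h2 := h1.symm
    rw [Finset.prod_eq_zero_iff] at h2
    obtain ⟨i, _, hi⟩ := h2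
    rw [Finset.prod_eq_zero_iff] at hi
    obtain ⟨j, hj, hij⟩ := hi
    rw [sub_eq_zero] at hij
    have := hvinj hij
    rw [Finset.mem_Ioi, this] at hj
    exact lt_irrefl _ hj
  · show frobLift K (∏ j, (Gt.map (emb K)).eval (v j)) = _
    rw [map_prod]
    simp_rw [frob_map_eval, hπ]
    exact Function.Bijective.prod_comp hπbij (fun j => (Gt.map (emb K)).eval (v j))
  · show red (AC K) (∏ j, (Gt.map (emb K)).eval (v j)) ≠ 0
    rw [map_prod, Finset.prod_ne_zero_iff]
    exact fun j _ => hne Gt hcG j

lemma loc_eval {S Gt Ct mt U M : (WittVector 2 K)[X]} {N : ℕ}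
    (D : Sd (red (AC K)) (S.map (emb K)) (Gt.map (emb K)) (Ct.map (emb K))
        (mt.map (emb K)) N)
    (hU : D.U = U.map (emb K)) (hM : D.M = M.map (emb K)) {r l : WittVector 2 (AC K)}
    (h : D.Loc r l) :
    red (AC K) l = kq (U.map (red K)) (Gt.map (red K)) (M.map (red K)) (red (AC K) r) +
      (kq (U.map (red K)) (Gt.map (red K)) (M.map (red K)) (red (AC K) r)) ^ 2 +
      Wr (U.map (red K)) (Gt.map (red K)) (red (AC K) r) := by
  refine h _ _ _ _ rfl rfl ?_ ?_
  · rw [hU, hM, derivative_map, derivative_map, derivative_map, emap, emap, emap, emap,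
      ← derivative_map, ← derivative_map, ← derivative_map]
    rfl
  · rw [hU, derivative_map, derivative_map, emap, emap, emap,
      ← derivative_map, ← derivative_map]
    rfl

end witt

end Pool.Agent.H140.QM
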