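import Mathlib
import Pool.Agent.H140.QM.KeyW
import Pool.Agent.H140.Q.Key

/-!
# The key formula for quadratic polynomials
-/

set_option autoImplicit false

namespace Pool.Agent.H140.QM

open Polynomial
open Pool.Agent.H985.Chow
open Pool.Agent.H140.Q (UM fM S_keyM kq frob_kq two0')
open Pool.Agent.H524 (red emb frobLift AC vdm two_dvd_iff isUnit_iff_red two_ne_zero_witt
  red_frobLift frobLift_emb red_emb)

section
variable {K : Type} [Field K] [Fintype K] [CharP K 2]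

omit [Fintype K] in
/-- `f = U² + X G²` -/
lemma f_eq (θ ε δ x y : K[X]) :
    (x ^ 2 + X * y ^ 2) ^ 2 + θ ^ 2 * (x ^ 2 + X * y ^ 2) + (ε ^ 2 + X * δ ^ 2) =
      (UM θ ε x y) ^ 2 + X * (θ * y + δ) ^ 2 := by
  unfold UM
  linear_combination (-(x ^ 2 + X * y ^ 2) * θ * x - (x ^ 2 + X * y ^ 2) * ε - θ * x * ε -
    X * θ * y * δ) * two0' (K := K)

lemma F_lift {R : Type} [CommRing R] [Nontrivial R] {A T Ct : R[X]} {n : ℕ}
    (hA : A.Monic) (hd : A.natDegree = n) (hT : T.natDegree < n) (hc : Ct.natDegree < 2 * n) :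
    (A ^ 2 + T * A + Ct).Monic ∧ (A ^ 2 + T * A + Ct).natDegree = 2 * n := by
  have h1 : (A ^ 2).Monic := hA.pow 2
  have h2 : (A ^ 2).natDegree = 2 * n := by rw [hA.natDegree_pow, hd]
  have h3 : (T * A + Ct).natDegree < 2 * n := by
    refine lt_of_le_of_lt (natDegree_add_le _ _) (max_lt ?_ hc)
    exact lt_of_le_of_lt natDegree_mul_le (by omega)
  rw [add_assoc]
  refine ⟨h1.add_of_left (degree_lt_degree (by omega)), ?_⟩
  rw [natDegree_add_eq_left_of_natDegree_lt (by omega), h2]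

end

open Classical in
/-- **The key formula.** -/
theorem keyM : S_keyM := by
  intro K _ _ _ n c₀ c θ x₁ x₂ y ε δ e h m g₁ g₂ hc hθ he hh hm hcop hsq hθh hmh hG hm₁ hd₁ hm₂
    hd₂ hg₁ hg₂ hc₁ hc₂ hdvd hCc hθc hmc hdeg hdeg2 hdeg3
  have h2AC : (2 : AC K) = 0 := two_AC
  obtain ⟨u, hu⟩ := hdvd
  have hehm : (e * h).Monic := he.mul hh
  have hehd : (e * h).natDegree = e.natDegree + h.natDegree := he.natDegree_mul hh
  have hn1 : 1 ≤ n := by omega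
  -- the monic part of `θ`
  obtain ⟨t₀, ht₀⟩ : ∃ t, t = θ.leadingCoeff := ⟨_, rfl⟩
  have ht₀0 : t₀ ≠ 0 := by
    rw [ht₀]
    exact leadingCoeff_ne_zero.2 hθ
  obtain ⟨θ₁, hθ₁⟩ : ∃ t, t = θ * C (t₀⁻¹) := ⟨_, rfl⟩
  have hθ₁m : θ₁.Monic := by
    rw [hθ₁, ht₀]
    exact monic_mul_leadingCoeff_inv hθ
  have hθe : θ = C t₀ * θ₁ := by
    have e1 : C t₀ * C (t₀⁻¹) = (1 : K[X]) := by rw [← C_mul, mul_inv_cancel₀ ht₀0, C_1]
    rw [hθ₁]
    linear_combination (-θ) * e1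
  have hθ₁d : θ₁.natDegree = θ.natDegree := by
    rw [hθe, natDegree_C_mul ht₀0]
  obtain ⟨u', hu'⟩ : ∃ u', u' = C (t₀ ^ 5) * u := ⟨_, rfl⟩
  have hue : x₂ - x₁ = (θ₁ * (e * m)) ^ 5 * u' := by
    rw [hu, hu', hθe, C_pow]
    ring
  have hθem : (θ₁ * (e * m)).Monic := hθ₁m.mul (he.mul hm)
  -- lifts
  obtain ⟨s₀, hs₀⟩ : ∃ t, t = WittVector.teichmuller 2 t₀ := ⟨_, rfl⟩
  obtain ⟨ct, hct⟩ : ∃ t, t = WittVector.teichmuller 2 c := ⟨_, rfl⟩
  obtain ⟨S₁, hS₁⟩ : ∃ E, E = tl θ₁ := ⟨_, rfl⟩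
  obtain ⟨S, hS⟩ : ∃ E, E = C s₀ * S₁ := ⟨_, rfl⟩
  obtain ⟨Mt, hMt⟩ : ∃ E, E = tl m := ⟨_, rfl⟩
  obtain ⟨E, hE⟩ : ∃ E, E = tl e := ⟨_, rfl⟩
  obtain ⟨H, hH⟩ : ∃ H, H = tl h := ⟨_, rfl⟩
  obtain ⟨V, hV⟩ : ∃ U, U = tl u' := ⟨_, rfl⟩
  obtain ⟨C0, hC0⟩ : ∃ U, U = tl (ε ^ 2 + X * δ ^ 2) := ⟨_, rfl⟩
  obtain ⟨U₁, hU₁⟩ : ∃ U, U = tl (UM θ ε x₁ y) := ⟨_, rfl⟩
  obtain ⟨U₂, hU₂⟩ : ∃ U, U = tl (UM θ ε x₂ y) := ⟨_, rfl⟩
  obtain ⟨A₁, hA₁⟩ : ∃ A, A = tl (x₁ ^ 2 + X * y ^ 2) := ⟨_, rfl⟩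
  obtain ⟨w, hw⟩ : ∃ A, A = (S₁ * (E * Mt)) ^ 5 * V := ⟨_, rfl⟩
  obtain ⟨A₂, hA₂⟩ : ∃ A, A = A₁ + w ^ 2 := ⟨_, rfl⟩
  obtain ⟨Gt, hGt⟩ : ∃ B, B = C ct * (E * H) := ⟨_, rfl⟩
  have hs₀r : red K s₀ = t₀ := hs₀ ▸ WittVector.teichmuller_coeff_zero 2 _
  have hcr : red K ct = c := hct ▸ WittVector.teichmuller_coeff_zero 2 _
  have hS₁m : S₁.Monic := hS₁ ▸ tl_monic hθ₁m
  have hEm : E.Monic := hE ▸ tl_monic he
  have hHm : H.Monic := hH ▸ tl_monic hh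
  have hMm : Mt.Monic := hMt ▸ tl_monic hm
  have hS₁d : S₁.natDegree = θ.natDegree := by rw [hS₁, natDegree_tl hθ₁m, hθ₁d]
  have hEd : E.natDegree = e.natDegree := hE ▸ natDegree_tl he
  have hHd : H.natDegree = h.natDegree := hH ▸ natDegree_tl hh
  have hMd : Mt.natDegree = m.natDegree := hMt ▸ natDegree_tl hm
  have hS₁r : S₁.map (red K) = θ₁ := hS₁ ▸ map_tl θ₁
  have hSr : S.map (red K) = θ := by
    rw [hS, Polynomial.map_mul, map_C, hS₁r, hs₀r, ← hθe]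
  have hMr : Mt.map (red K) = m := hMt ▸ map_tl m
  have hEr : E.map (red K) = e := hE ▸ map_tl e
  have hHr : H.map (red K) = h := hH ▸ map_tl h
  have hVr : V.map (red K) = u' := hV ▸ map_tl u'
  have hC0r : C0.map (red K) = ε ^ 2 + X * δ ^ 2 := hC0 ▸ map_tl _
  have hU₁r : U₁.map (red K) = UM θ ε x₁ y := hU₁ ▸ map_tl _
  have hU₂r : U₂.map (red K) = UM θ ε x₂ y := hU₂ ▸ map_tl _
  have hA₁r : A₁.map (red K) = x₁ ^ 2 + X * y ^ 2 := hA₁ ▸ map_tl _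
  have hwr : w.map (red K) = x₂ - x₁ := by
    rw [hw, Polynomial.map_mul, Polynomial.map_pow, Polynomial.map_mul, Polynomial.map_mul, hEr,
      hVr, hS₁r, hMr, hue]
  have hA₂r : A₂.map (red K) = x₂ ^ 2 + X * y ^ 2 := by
    rw [hA₂, Polynomial.map_add, Polynomial.map_pow, hA₁r, hwr]
    linear_combination (x₁ ^ 2 - x₁ * x₂) * two0' (K := K)
  have hGr : Gt.map (red K) = C c * (e * h) := by
    rw [hGt, Polynomial.map_mul, Polynomial.map_mul, map_C, hEr, hHr, hcr]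
  -- degrees
  have hCn : C0.natDegree ≤ (ε ^ 2 + X * δ ^ 2).natDegree := hC0 ▸ natDegree_tl_le _
  have hwn : w.natDegree ≤ (x₂ - x₁).natDegree := by
    rw [hw]
    by_cases hu0 : u' = 0
    · rw [hV, hu0, tl_zero, mul_zero, natDegree_zero]; omega
    · have e1 : ((S₁ * (E * Mt)) ^ 5 * V).natDegree ≤
          5 * (S₁.natDegree + (E.natDegree + Mt.natDegree)) + V.natDegree := by
        refine natDegree_mul_le.trans ?_
        have := natDegree_pow_le (p := (S₁ * (E * Mt))) (n := 5)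
        rw [hS₁m.natDegree_mul (hEm.mul hMm), hEm.natDegree_mul hMm] at this
        omega
      have e2 : (x₂ - x₁).natDegree =
          5 * (θ₁.natDegree + (e.natDegree + m.natDegree)) + u'.natDegree := by
        rw [hue, natDegree_mul (pow_ne_zero 5 hθem.ne_zero) hu0, natDegree_pow,
          hθ₁m.natDegree_mul (he.mul hm), he.natDegree_mul hm]
      have e3 : V.natDegree ≤ u'.natDegree := hV ▸ natDegree_tl_le u'
      omega
  have hA₁m : A₁.Monic := hA₁ ▸ tl_monic hm₁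
  have hA₁d : A₁.natDegree = n := by rw [hA₁, natDegree_tl hm₁, hd₁]
  have hw2 : (w ^ 2).natDegree < n := by
    have := natDegree_pow_le (p := w) (n := 2)
    omega
  have hA₂m : A₂.Monic := by
    rw [hA₂]
    exact hA₁m.add_of_left (degree_lt_degree (by omega))
  have hA₂d : A₂.natDegree = n := by
    rw [hA₂, natDegree_add_eq_left_of_natDegree_lt (by omega), hA₁d]
  have hSd : S.natDegree ≤ θ.natDegree := by
    rw [hS, ← hS₁d]
    exact natDegree_C_mul_le _ _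
  have hS2d : (S ^ 2).natDegree < n := by
    have := natDegree_pow_le (p := S) (n := 2)
    omega
  obtain ⟨F0, hF0⟩ : ∃ F, F = A₁ ^ 2 + S ^ 2 * A₁ + C0 := ⟨_, rfl⟩
  have hF0r : F0.map (red K) = (UM θ ε x₁ y) ^ 2 + X * (C c * (e * h)) ^ 2 := by
    rw [← hG, ← f_eq, hF0]
    simp only [Polynomial.map_add, Polynomial.map_mul, Polynomial.map_pow, hA₁r, hSr, hC0r]
  have hR0 : (F0 %ₘ Mt).map (red K) = 0 := by
    rw [Polynomial.map_modByMonic _ hMm, hF0r, hMr, hg₁, modByMonic_eq_zero_iff_dvd hm]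
    exact Dvd.intro _ rfl
  obtain ⟨Ct, hCt⟩ : ∃ U, U = C0 - F0 %ₘ Mt := ⟨_, rfl⟩
  have hCtr : Ct.map (red K) = ε ^ 2 + X * δ ^ 2 := by
    rw [hCt, Polynomial.map_sub, hR0, sub_zero, hC0r]
  have hCtn : Ct.natDegree ≤ c₀ := by
    rw [hCt]
    refine (natDegree_sub_le _ _).trans (max_le (by omega) ?_)
    exact (natDegree_modByMonic_le _ hMm).trans (by omega)
  obtain ⟨F₁, hF₁⟩ : ∃ F, F = A₁ ^ 2 + S ^ 2 * A₁ + Ct := ⟨_, rfl⟩
  obtain ⟨F₂, hF₂⟩ : ∃ F, F = A₂ ^ 2 + S ^ 2 * A₂ + Ct := ⟨_, rfl⟩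
  obtain ⟨Fo₁, hFo₁⟩ : ∃ F, F = F0 /ₘ Mt := ⟨_, rfl⟩
  obtain ⟨Fo₂, hFo₂⟩ : ∃ F, F = Fo₁ + ((S₁ * E) ^ 5 * Mt ^ 4 * V) * w * (A₁ + A₂ + S ^ 2) :=
    ⟨_, rfl⟩
  have hFm₁ : F₁ = Mt * Fo₁ := by
    have e1 := modByMonic_add_div F0 Mt
    rw [← hFo₁] at e1
    rw [hF₁, hCt]
    linear_combination -e1 - hF0
  have hFm₂ : F₂ = Mt * Fo₂ := by
    have e1 : F₂ = F₁ + w ^ 2 * (A₁ + A₂ + S ^ 2) := by
      rw [hF₁, hF₂, hA₂]
      ring
    rw [e1, hFm₁, hFo₂]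
    linear_combination (w * (A₁ + A₂ + S ^ 2)) * hw
  obtain ⟨hF₁m, hF₁d⟩ := F_lift hA₁m hA₁d hS2d (show Ct.natDegree < 2 * n by omega)
  obtain ⟨hF₂m, hF₂d⟩ := F_lift hA₂m hA₂d hS2d (show Ct.natDegree < 2 * n by omega)
  rw [← hF₁] at hF₁m hF₁d
  rw [← hF₂] at hF₂m hF₂d
  have hFo₁m : Fo₁.Monic := by
    rw [hFm₁] at hF₁m
    exact hMm.of_mul_monic_left hF₁m
  have hFo₂m : Fo₂.Monic := by
    rw [hFm₂] at hF₂m
    exact hMm.of_mul_monic_left hF₂m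
  obtain ⟨N, hN⟩ : ∃ N, N = 2 * n - m.natDegree := ⟨_, rfl⟩
  have hFo₁d : Fo₁.natDegree = N := by
    rw [hFm₁, hMm.natDegree_mul hFo₁m] at hF₁d
    omega
  have hFo₂d : Fo₂.natDegree = N := by
    rw [hFm₂, hMm.natDegree_mul hFo₂m] at hF₂d
    omega
  have hF₁r' : F₁.map (red K) = (UM θ ε x₁ y) ^ 2 + X * (C c * (e * h)) ^ 2 := by
    rw [← hG, ← f_eq, hF₁]
    simp only [Polynomial.map_add, Polynomial.map_mul, Polynomial.map_pow, hA₁r, hSr, hCtr]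
  have hF₂r' : F₂.map (red K) = (UM θ ε x₂ y) ^ 2 + X * (C c * (e * h)) ^ 2 := by
    rw [← hG, ← f_eq, hF₂]
    simp only [Polynomial.map_add, Polynomial.map_mul, Polynomial.map_pow, hA₂r, hSr, hCtr]
  have hF₁r : F₁.map (red K) = (U₁.map (red K)) ^ 2 + X * (Gt.map (red K)) ^ 2 := by
    rw [hU₁r, hGr, hF₁r']
  have hF₂r : F₂.map (red K) = (U₂.map (red K)) ^ 2 + X * (Gt.map (red K)) ^ 2 := by
    rw [hU₂r, hGr, hF₂r']
  have hFo₁r : Fo₁.map (red K) = g₁ := by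
    apply mul_left_cancel₀ hm.ne_zero
    rw [← hg₁, ← hF₁r', hFm₁, Polynomial.map_mul, hMr]
  have hFo₂r : Fo₂.map (red K) = g₂ := by
    apply mul_left_cancel₀ hm.ne_zero
    rw [← hg₂, ← hF₂r', hFm₂, Polynomial.map_mul, hMr]
  -- coprimality
  have hcu : ∀ p : K[X], IsCoprime p (C c) := fun p =>
      ⟨0, C c⁻¹, by rw [zero_mul, zero_add, ← C_mul, inv_mul_cancel₀ hc, C_1]⟩
  have hg₁θ : IsCoprime g₁ θ := hc₁.of_mul_right_left.of_mul_right_left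
  have hg₂θ : IsCoprime g₂ θ := hc₂.of_mul_right_left.of_mul_right_left
  have hg₁m : IsCoprime g₁ m := hc₁.of_mul_right_left.of_mul_right_right
  have hg₂m : IsCoprime g₂ m := hc₂.of_mul_right_left.of_mul_right_right
  have hg₁e : IsCoprime g₁ (e * h) := hc₁.of_mul_right_right
  have hg₂e : IsCoprime g₂ (e * h) := hc₂.of_mul_right_right
  obtain ⟨M₁, D₁, dA₁, dU₁, dM₁, dF₁, dv₁, dv₁0, dT₁, dT₁0⟩ :=
    sideW S A₁ Ct Gt Mt U₁ F₁ Fo₁ hF₁ hFm₁ hFo₁m hFo₁d hF₁r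
      (by rw [hFo₁r, hGr]; exact (hcu _).mul_right hg₁e) (by rw [hFo₁r, hSr]; exact hg₁θ)
      (by rw [hFo₁r, hMr]; exact hg₁m)
  obtain ⟨M₂, D₂, dA₂, dU₂, dM₂, dF₂, dv₂, dv₂0, dT₂, dT₂0⟩ :=
    sideW S A₂ Ct Gt Mt U₂ F₂ Fo₂ hF₂ hFm₂ hFo₂m hFo₂d hF₂r
      (by rw [hFo₂r, hGr]; exact (hcu _).mul_right hg₂e) (by rw [hFo₂r, hSr]; exact hg₂θ)
      (by rw [hFo₂r, hMr]; exact hg₂m)
  -- the nodes
  obtain ⟨r, hr, hrinj, hrperm, -⟩ := sgn K H.natDegree H hHm rfl (by rw [hHr]; exact hsq)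
  have hHred : h.map (algebraMap K (AC K)) = ∏ i, (X - C (red (AC K) (r i))) := by
    rw [← hHr, ← red_map_map, hr, Polynomial.map_prod]
    simp only [Polynomial.map_sub, map_X, map_C]
  have hhρ : ∀ i, (h.map (algebraMap K (AC K))).eval (red (AC K) (r i)) = 0 := by
    intro i
    rw [hHred, eval_prod]
    exact Finset.prod_eq_zero (Finset.mem_univ i) (by simp)
  have heρ : ∀ i, red (AC K) ((E.map (emb K)).eval (r i)) ≠ 0 := by
    intro i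
    rw [red_map_eval, hEr]
    exact coprime_eval hcop _ (hhρ i)
  have hSρ : ∀ i, red (AC K) ((S₁.map (emb K)).eval (r i)) ≠ 0 := by
    intro i
    rw [red_map_eval, hS₁r]
    refine coprime_eval ?_ _ (hhρ i)
    rw [hθe] at hθh
    exact hθh.of_mul_left_right
  have hmρ : ∀ i, red (AC K) ((Mt.map (emb K)).eval (r i)) ≠ 0 := by
    intro i
    rw [red_map_eval, hMr]
    exact coprime_eval hmh _ (hhρ i)
  have hUρ : ∀ (x g : K[X]), (UM θ ε x y) ^ 2 + X * (C c * (e * h)) ^ 2 = m * g →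
      IsCoprime g (e * h) → ∀ i,
      ((UM θ ε x y).map (algebraMap K (AC K))).eval (red (AC K) (r i)) ≠ 0 := by
    intro x g hx hgh i h0
    have e1 := congrArg (fun p => (p.map (algebraMap K (AC K))).eval (red (AC K) (r i))) hx
    simp only [Polynomial.map_add, Polynomial.map_mul, Polynomial.map_pow, eval_add, eval_mul,
      eval_pow, h0, hhρ i, mul_zero] at e1
    have e2 := coprime_eval hmh _ (hhρ i)
    have e3 := coprime_eval hgh.of_mul_right_right _ (hhρ i)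
    exact mul_ne_zero e2 e3 (by rw [← e1]; ring)
  have hUρ₁ : ∀ i, red (AC K) (D₁.U.eval (r i)) ≠ 0 := by
    intro i
    rw [dU₁, red_map_eval, hU₁r]
    exact hUρ x₁ g₁ hg₁ hg₁e i
  have hUρ₂ : ∀ i, red (AC K) (D₂.U.eval (r i)) ≠ 0 := by
    intro i
    rw [dU₂, red_map_eval, hU₂r]
    exact hUρ x₂ g₂ hg₂ hg₂e i
  obtain ⟨l₁, l₂, N₁, N₂, q, L1, L2, hN', hN₂, hq⟩ := Sd.keyR D₁ D₂
    (fun x hx => isUnit_iff_red x hx)
    (fun x hx => by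
      obtain ⟨t, ht⟩ := (two_dvd_iff x).2 hx
      exact ⟨t, ht⟩)
    (two_ne_zero_witt (E := AC K))
    (S₁ := S₁.map (emb K)) (s₀ := emb K s₀) (by rw [hS, Polynomial.map_mul, map_C])
    (by rw [red_emb, hs₀r]; exact (_root_.map_ne_zero _).mpr ht₀0) (hS₁m.map _) (hMm.map _)
    (χ := emb K ct) (by rw [red_emb, hcr]; exact (_root_.map_ne_zero _).mpr hc)
    (E := E.map (emb K)) (r := r) (hEm.map _)
    (by rw [hGt, Polynomial.map_mul, map_C, Polynomial.map_mul, hr])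
    (fun i j hij h0 => hij (hrinj h0)) heρ hSρ hmρ hUρ₁ hUρ₂
    (w := w.map (emb K)) (by rw [dA₁, dA₂, hA₂, Polynomial.map_add, Polynomial.map_pow])
    (by
      rw [hw, Polynomial.map_mul, Polynomial.map_pow, Polynomial.map_mul, Polynomial.map_mul]
      exact Dvd.intro _ rfl)
    (n := n) (d := (x₂ - x₁).natDegree) (c := c₀)
    (by rw [hMm.natDegree_map, hMd, hN]; omega)
    (by rw [dA₁]; exact natDegree_map_le.trans hA₁d.le)
    (by rw [dA₂]; exact natDegree_map_le.trans hA₂d.le)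
    (natDegree_map_le.trans hwn) (natDegree_map_le.trans hCtn)
    (by rw [hS₁m.natDegree_map, hS₁d]; exact hθc)
    (by rw [hMm.natDegree_map, hMd]; exact hmc)
    (by rw [hEm.natDegree_map, hEd, hHd]; omega)
    (by rw [hEm.natDegree_map, hEd, hHd, hS₁m.natDegree_map, hS₁d]; omega)
    (by omega) dv₂0
  -- the sign step
  have hpm : ∀ F : K[X], Squarefree F → ((-1) ^ N * mob F : ℤ) = 1 ∨
      ((-1) ^ N * mob F : ℤ) = -1 := by
    intro F hF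
    rcases mob_pm hF with h | h <;> rcases neg_one_pow_eq_or ℤ N with h' | h' <;>
      rw [h, h'] <;> norm_num
  obtain ⟨x, hx, hxc⟩ := sign_step (K := K)
    (vdm D₁.v * ∏ j, (Gt.map (emb K)).eval (D₂.v j))
    (vdm D₂.v * ∏ j, (Gt.map (emb K)).eval (D₁.v j)) N₁ N₂
    (-(∑ i, (l₁ i - l₂ i))) _ _
    (hpm (Fo₁.map (red K)) (by
      rw [hFo₁r]
      exact sqf rfl hg₁ ((hcu _).mul_right hg₁e)))
    (hpm (Fo₂.map (red K)) (by
      rw [hFo₂r]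
      exact sqf rfl hg₂ ((hcu _).mul_right hg₂e)))
    (by rw [map_mul, dv₁, dT₂]; ring) (by rw [map_mul, dv₂, dT₁]; ring)
    (by rw [map_mul]; exact mul_ne_zero dv₂0 dT₁0) hN' hN₂ ⟨q, hq⟩
  have hsgn : ((-1) ^ N * mob (Fo₁.map (red K)) : ℤ) *
      ((-1) ^ N * mob (Fo₂.map (red K)) : ℤ) =
      mob (Fo₁.map (red K)) * mob (Fo₂.map (red K)) := by
    have : ((-1 : ℤ) ^ N) * (-1) ^ N = 1 := by
      rw [← mul_pow]; norm_num
    linear_combination (mob (Fo₁.map (red K)) * mob (Fo₂.map (red K))) * this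
  rw [hsgn, hFo₁r, hFo₂r] at hxc
  -- the sums
  obtain ⟨f, hf⟩ : ∃ f : AC K → AC K, f = fun t =>
    kq (U₁.map (red K)) (Gt.map (red K)) (M₁.map (red K)) t +
    kq (U₂.map (red K)) (Gt.map (red K)) (M₂.map (red K)) t := ⟨_, rfl⟩
  obtain ⟨g, hg⟩ : ∃ g : AC K → AC K, g = fun t =>
    Wr (U₁.map (red K)) (Gt.map (red K)) t + Wr (U₂.map (red K)) (Gt.map (red K)) t := ⟨_, rfl⟩
  have hperm : ∀ i, ∃ j, (red (AC K) (r i)) ^ Fintype.card K = red (AC K) (r j) := by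
    intro i
    obtain ⟨j, hj⟩ := hrperm i
    exact ⟨j, by rw [← red_frobLift, hj]⟩
  have hy := frob_sum (fun i => red (AC K) (r i)) hrinj hperm f
    (fun t => by
      rw [hf]
      show (_ + _) ^ _ = _ + _
      rw [← frob_apply, map_add, frob_apply, frob_apply, frob_kq, frob_kq])
  have hwq := frob_sum (fun i => red (AC K) (r i)) hrinj hperm g
    (fun t => by
      rw [hg]
      show (_ + _) ^ _ = _ + _
      rw [← frob_apply, map_add, frob_apply, frob_apply, frob_Wr, frob_Wr])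
  have hz : red (AC K) (-(∑ i, (l₁ i - l₂ i))) = ∑ i, f (red (AC K) (r i)) +
      (∑ i, f (red (AC K) (r i))) ^ 2 + ∑ i, g (red (AC K) (r i)) := by
    have e3 : ∀ f : Fin H.natDegree → AC K, (∑ i, f i) ^ 2 = ∑ i, (f i) ^ 2 := fun f =>
      sum_pow_char 2 Finset.univ f
    rw [e3, ← Finset.sum_add_distrib, ← Finset.sum_add_distrib, map_neg, map_sum,
      ← Finset.sum_neg_distrib]
    refine Finset.sum_congr rfl fun i _ => ?_
    rw [map_sub, loc_eval D₁ dU₁ dM₁ (L1 i), loc_eval D₂ dU₂ dM₂ (L2 i), hf, hg]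
    beta_reduce
    generalize kq (U₁.map (red K)) (Gt.map (red K)) (M₁.map (red K)) (red (AC K) (r i)) = k₁
    generalize kq (U₂.map (red K)) (Gt.map (red K)) (M₂.map (red K)) (red (AC K) (r i)) = k₂
    generalize Wr (U₁.map (red K)) (Gt.map (red K)) (red (AC K) (r i)) = w₁
    generalize Wr (U₂.map (red K)) (Gt.map (red K)) (red (AC K) (r i)) = w₂
    linear_combination (-k₁ - k₁ ^ 2 - w₁ - k₁ * k₂) * h2AC
  obtain ⟨w0, hw1, hw2⟩ := last_step x _ _ _ _ hx hz hy hwq hxc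
  refine ⟨w0, ?_, ?_⟩
  · rw [hw1, sum_roots h hh (fun i => red (AC K) (r i)) hrinj hHred, hg, hU₁r, hU₂r, hGr]
  · rcases hw2 with ⟨h1, h2⟩ | ⟨h1, h2⟩
    · rw [h1, if_pos h2]
    · rw [h1, if_neg h2]

end Pool.Agent.H140.QM
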